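import Pool.Agent.H.MP_31db24_co.A

set_option autoImplicit false

namespace Pool.Agent.H.MP_31db24_co

open Filter Set

/-- thickly syndetic subsets of the plane, relative to an ultrafilter in the first coordinate -/
def TS (p : Ultrafilter ℤ) (T : Set (ℤ × ℤ)) : Prop :=
  ∀ F : Finset (ℤ × ℤ), ∃ G : Finset (ℤ × ℤ), ∀ k : ℤ,
    {b | ∀ m : ℤ, ∃ g ∈ G, ∀ f ∈ F, (k + b + g.1 + f.1, m + g.2 + f.2) ∈ T} ∈ p

theorem TS.univ (p : Ultrafilter ℤ) : TS p univ := fun _ =>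
  ⟨{0}, fun _ => mem_of_superset (univ_mem : Set.univ ∈ (p : Filter ℤ)) fun _ _ _ =>
    ⟨0, by simp, fun _ _ => trivial⟩⟩

theorem TS.nonempty {p : Ultrafilter ℤ} {T : Set (ℤ × ℤ)} (h : TS p T) : T.Nonempty := by
  obtain ⟨G, hG⟩ := h {0}
  obtain ⟨b, hb⟩ := Ultrafilter.nonempty_of_mem (hG 0)
  obtain ⟨g, _, h1⟩ := hb 0
  exact ⟨_, h1 0 (by simp)⟩

theorem TS.inter {p : Ultrafilter ℤ} {T T' : Set (ℤ × ℤ)} (h : TS p T) (h' : TS p T') :
    TS p (T ∩ T') := by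
  classical
  intro F
  obtain ⟨G2, hG2⟩ := h' F
  obtain ⟨G1, hG1⟩ := h (Finset.image₂ (· + ·) G2 F)
  refine ⟨Finset.image₂ (· + ·) G1 G2, fun k => ?_⟩
  have h3 : (⋂ g ∈ G1, {b | ∀ m : ℤ, ∃ g' ∈ G2, ∀ f ∈ F,
      (k + g.1 + b + g'.1 + f.1, m + g'.2 + f.2) ∈ T'}) ∈ (p : Filter ℤ) :=
    (biInter_finset_mem G1).2 fun g _ => hG2 (k + g.1)
  refine mem_of_superset (inter_mem (hG1 k) h3) ?_
  rintro b ⟨hb1, hb2⟩ m
  obtain ⟨g, hg, h4⟩ := hb1 m
  simp only [mem_iInter] at hb2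
  obtain ⟨g', hg', h5⟩ := hb2 g hg (m + g.2)
  refine ⟨g + g', Finset.mem_image₂_of_mem hg hg', fun f hf => ⟨?_, ?_⟩⟩
  · convert h4 _ (Finset.mem_image₂_of_mem hg' hf) using 2 <;> simp <;> ring
  · convert h5 f hf using 2 <;> simp <;> ring

theorem TS.shear {p : Ultrafilter ℤ} {T : Set (ℤ × ℤ)} (h : TS p T) (d a e : ℤ) :
    TS p {z | (z.1 + d, z.2 + a - e * z.1) ∈ T} := by
  classical
  intro F
  obtain ⟨G, hG⟩ := h (F.image fun f => (f.1, f.2 - e * f.1))
  refine ⟨G.image fun g => (g.1, g.2 + e * g.1), fun k => ?_⟩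
  refine mem_of_superset (hG (k + d)) fun b hb m => ?_
  obtain ⟨g, hg, h1⟩ := hb (m + a - e * (k + b))
  refine ⟨_, Finset.mem_image_of_mem _ hg, fun f hf => ?_⟩
  have := h1 _ (Finset.mem_image_of_mem _ hf)
  change _ ∈ T
  convert this using 2 <;> simp <;> ring

theorem TS.fin {p : Ultrafilter ℤ} {α : Type*} (s : Finset α) (W : α → Set (ℤ × ℤ))
    (hW : ∀ a ∈ s, TS p (W a)) : TS p {x | ∀ a ∈ s, x ∈ W a} := by
  classical
  induction s using Finset.induction_on with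
  | empty => simpa using TS.univ p
  | insert a s _ ih =>
    have h1 := (hW a (by simp)).inter (ih fun b hb => hW b (by simp [hb]))
    convert h1 using 1
    ext x; simp

/-- square differences inside one class meet every thickly syndetic set -/
theorem sq_meets {O : Set ℤ → Prop} (h : Alg O) {γ : Type*} (C : Finset γ) (K : γ → Set ℤ)
    (hK : ∀ f, O (K f)) (hC : ∀ m, ∃ f ∈ C, m ∈ K f) {p : Ultrafilter ℤ} {T : Set (ℤ × ℤ)}
    (hT : TS p T) : ∃ n m f, (n, m) ∈ T ∧ m ∈ K f ∧ m + n ^ 2 ∈ K f := by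
  classical
  obtain ⟨n, m, f, -, h1, h2, h3⟩ := focus h C K hK hC ({()} : Finset Unit) (fun _ n => n ^ 2)
    (by simp) (fun n m => (n, m) ∈ T) (by
      intro V hV hne N
      obtain ⟨D, hD⟩ := glasner h N (fun e => 2 * e) V hV hne
      obtain ⟨⟨n, m⟩, hz⟩ := (TS.fin (D ×ˢ N) (fun z => {w | (w.1 + (z.1.1 + z.2),
        w.2 + (z.1.2 - z.1.1 ^ 2) - (2 * z.1.1) * w.1) ∈ T}) fun z _ => hT.shear _ _ _).nonempty
      obtain ⟨d, hd, h1⟩ := hD n (m + n ^ 2)
      refine ⟨n + d.1, m + n ^ 2 + d.2 - (n + d.1) ^ 2, fun ν hν => ?_, fun ν hν _ _ => ?_⟩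
      · have := hz (d, ν) (Finset.mem_product.2 ⟨hd, hν⟩)
        change _ ∈ T at this
        convert this using 2 <;> simp <;> ring
      · convert h1 ν hν using 1
        ring)
  exact ⟨n, m, f, h1, h2, h3 () (by simp)⟩

theorem st_mono {p : Ultrafilter ℤ} {A B : Set ℤ} (h : A ⊆ B) : st p A ⊆ st p B :=
  fun _ ha => mem_of_superset ha fun _ hb => h hb

theorem st_gt {p : Ultrafilter ℤ} (hp : (p : Filter ℤ) ≤ atTop) {A : Set ℤ} (K : ℤ) :
    st p A ⊆ st p (A ∩ {x | K < x}) := fun a ha =>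
  inter_mem ha (hp (mem_of_superset (Ioi_mem_atTop (K - a)) fun b hb => by
    simp only [mem_Ioi] at hb
    change K < a + b
    linarith))

/-- either the pattern exists in `A` or the greedy construction gets stuck -/
theorem greedy {p : Ultrafilter ℤ} (hp : (p : Filter ℤ) ≤ atTop) (φ : ℤ → ℤ) (A U : Set ℤ)
    (hU : (st p U).Nonempty) (hUA : U ⊆ A)
    (h : ∀ U1 ⊆ U, (st p U1).Nonempty → ∃ b ∈ U1, (st p (U1 ∩ {x | x + φ b ∈ A})).Nonempty) :
    ∃ b : ℕ → ℤ, StrictMono b ∧ 0 < b 0 ∧ (∀ i, b i ∈ A) ∧ ∀ i j, i < j → b j + φ (b i) ∈ A := by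
  choose! β hβ1 hβ2 using h
  let W : ℕ → Set ℤ := fun n => Nat.rec (U ∩ {x | 0 < x})
    (fun _ X => X ∩ {x | x + φ (β X) ∈ A} ∩ {x | β X < x}) n
  have hW : ∀ n, W n ⊆ U ∧ (st p (W n)).Nonempty := by
    intro n
    induction n with
    | zero => exact ⟨inter_subset_left, hU.mono (st_gt hp 0)⟩
    | succ n ih =>
      exact ⟨fun x hx => ih.1 hx.1.1, (hβ2 _ ih.1 ih.2).mono (st_gt hp _)⟩
  have hb : ∀ n, β (W n) ∈ W n := fun n => hβ1 _ (hW n).1 (hW n).2
  have hanti : Antitone W := antitone_nat_of_succ_le fun n x hx => hx.1.1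
  refine ⟨fun n => β (W n), strictMono_nat_of_lt_succ fun n => (hb (n + 1)).2, (hb 0).2,
    fun i => hUA ((hW i).1 (hb i)), fun i j hij => ?_⟩
  exact (hanti (show i + 1 ≤ j from hij) (hb j)).1.2

theorem main {γ : Type*} [Fintype γ] (A : γ → Set ℤ) (hA : ∀ x : ℤ, 0 ≤ x → ∃ i, x ∈ A i)
    (hd : ∀ i j x, x ∈ A i → x ∈ A j → i = j) :
    ∃ (b : ℕ → ℤ) (t : ℤ) (k : γ), StrictMono b ∧ 0 < b 0 ∧ (∀ i, b i + t ∈ A k) ∧
      ∀ i j, i < j → b j + b i ^ 2 + t ∈ A k := by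
  classical
  obtain ⟨p, hp, hur⟩ := exists_ur
  by_contra hc
  -- refining a large set by colour
  have href : ∀ (U : Set ℤ) (t a : ℤ), a ∈ st p U → ∃ i, a ∈ st p (U ∩ {x | x + t ∈ A i}) := by
    intro U t a ha
    have h1 : (⋃ i ∈ (univ : Set γ), {b | a + b ∈ U ∩ {x | x + t ∈ A i}}) ∈ p := by
      refine mem_of_superset (st_gt hp (-t) ha) fun b hb => ?_
      obtain ⟨i, hi⟩ := hA (a + b + t) (by have := hb.2; simp only [mem_ofPred_eq] at this; linarith)
      simp only [mem_iUnion]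
      exact ⟨i, trivial, hb.1, hi⟩
    rw [Ultrafilter.finite_biUnion_mem_iff finite_univ] at h1
    obtain ⟨i, -, hi⟩ := h1
    exact ⟨i, hi⟩
  let T : Set (ℤ × ℤ) := {z | ∀ i, ¬ (z.2 ∈ st p (A i) ∧ z.2 + z.1 ^ 2 ∈ st p (A i))}
  have hone : ∀ (U : Set ℤ) (s a : ℤ), (st p U).Nonempty → ∃ U1 ⊆ U, (st p U1).Nonempty ∧
      ∀ b ∈ U1, ∀ m ∈ st p U1, (b + s, m + a) ∈ T := by
    intro U s a ⟨x, hx⟩
    have hx' : x + s ∈ st p {y | y - s ∈ U} := by
      refine mem_of_superset hx fun b hb => ?_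
      change x + s + b - s ∈ U
      rw [show x + s + b - s = x + b by ring]
      exact hb
    obtain ⟨i, hi⟩ := href _ (a - s) _ hx'
    have hg := greedy hp (fun b => b ^ 2) {x | x + (a - s) ∈ A i} _ ⟨_, hi⟩ inter_subset_right
    by_contra hno
    have := hg (by
      intro U1 hU1 ⟨y, hy⟩
      by_contra hno'
      push Not at hno'
      refine hno ⟨{x | x + s ∈ U1}, fun x hx => ?_, ⟨y - s, ?_⟩, ?_⟩
      · simpa using (hU1 hx).1
      · refine mem_of_superset hy fun b hb => ?_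
        change y - s + b + s ∈ U1
        rw [show y - s + b + s = y + b by ring]
        exact hb
      · intro b hb m hm j ⟨h1, h2⟩
        have h3 := hno' (b + s) hb
        have h4 : {y | m + y + s ∈ U1} ∈ p := hm
        have h5 : {y | m + a + y ∈ A j} ∈ p := h1
        have h6 : {y | m + a + (b + s) ^ 2 + y ∈ A j} ∈ p := h2
        obtain ⟨y, hy1, hy2⟩ := Ultrafilter.nonempty_of_mem (inter_mem h4 h5)
        have hij : i = j := by
          refine hd i j (m + a + y) ?_ hy2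
          have : m + y + s + (a - s) ∈ A i := (hU1 hy1).2
          convert this using 1
          ring
        subst hij
        have : m + s ∈ st p (U1 ∩ {x | x + (b + s) ^ 2 ∈ {x | x + (a - s) ∈ A i}}) := by
          refine mem_of_superset (inter_mem h4 h6) fun y hy => ⟨?_, ?_⟩
          · rw [add_right_comm]
            exact hy.1
          · have : m + a + (b + s) ^ 2 + y ∈ A i := hy.2
            change m + s + y + (b + s) ^ 2 + (a - s) ∈ A i
            convert this using 1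
            ring
        rw [h3] at this
        exact this)
    obtain ⟨b, h1, h2, h3, h4⟩ := this
    exact hc ⟨b, a - s, i, h1, h2, h3, h4⟩
  have hfin : ∀ F : Finset (ℤ × ℤ), ∃ U, (st p U).Nonempty ∧
      ∀ f ∈ F, ∀ b ∈ U, ∀ m ∈ st p U, (b + f.1, m + f.2) ∈ T := by
    intro F
    induction F using Finset.induction_on with
    | empty => exact ⟨univ, ⟨0, (univ_mem : univ ∈ (p : Filter ℤ))⟩, by simp⟩
    | insert f F _ ih =>
      obtain ⟨U, hU, h1⟩ := ih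
      obtain ⟨U1, h2, h3, h4⟩ := hone U f.1 f.2 hU
      refine ⟨U1, h3, fun g hg b hb m hm => ?_⟩
      rcases Finset.mem_insert.1 hg with rfl | hg
      · exact h4 b hb m hm
      · exact h1 g hg b (h2 hb) m (st_mono h2 hm)
  have hT : TS p T := by
    intro F
    obtain ⟨U, hU, h1⟩ := hfin F
    obtain ⟨G, hG⟩ := hur U hU
    refine ⟨G ×ˢ G, fun k => ?_⟩
    obtain ⟨g, hg, h2⟩ := hG k
    refine mem_of_superset h2 fun b hb m => ?_
    obtain ⟨g', hg', h3⟩ := hG m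
    refine ⟨(g, g'), Finset.mem_product.2 ⟨hg, hg'⟩, fun f hf => ?_⟩
    have := h1 f hf _ hb _ h3
    convert this using 2
    ring
  obtain ⟨n, m, f, h1, h2, h3⟩ := sq_meets (alg_st p hur) Finset.univ (fun i => st p (A i))
    (fun i => ⟨_, rfl⟩) (fun m => by
      obtain ⟨i, hi⟩ := href univ 0 m (univ_mem : univ ∈ (p : Filter ℤ))
      exact ⟨i, Finset.mem_univ _, st_mono (fun x hx => by simpa using hx.2) hi⟩) hT
  exact h1 f ⟨h2, h3⟩

end Pool.Agent.H.MP_31db24_co
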